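import Pool.Agent.helper36.V3.SpecW
import Pool.Agent.helper31.PP.FL

/-!
# Project v3:, module FLQ: line fields and uniformly repelling cycles
-/

set_option autoImplicit false

open Complex Metric Set Filter Topology MeasureTheory MPS Pool.Agent.helper98.ILF Pool.Agent.helper16.Multibrot

noncomputable section

namespace V3W

theorem FLQ (hFLE : FLE_stmt) (hVPD : VPD_stmt) (hLGN : LGN_stmt) (hTHB0 : PPS.THB0_stmt)
    (hZCY : PPS.ZCY_stmt) (hTG : PPS.TG_stmt) : FLQ_stmt := by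
  intro f hn hCV μ hμ hind
  obtain ⟨Cf, hCf0, hFLE⟩ := hFLE f hn hCV μ hμ hind
  obtain ⟨a, ha, hBd⟩ := PPS.FL_bd f hn
  obtain ⟨ε₀, hε₀, hV⟩ := hVPD f.natDegree a Cf hn ha
  obtain ⟨hL1, -, hL3⟩ := hLGN
  set ε₁ : ℝ := min ε₀ 1 with hε₁
  have hε₁0 : 0 < ε₁ := lt_min hε₀ one_pos
  have hε₁1 : ε₁ ≤ 1 := min_le_right _ _
  have hε₁2 : ε₁ ≤ ε₀ := min_le_left _ _
  obtain ⟨R, hR, ε₂, hε₂, hT⟩ := hTHB0 f.natDegree a (ε₁ / 8) hn ha (by positivity)
  obtain ⟨-, hT⟩ := hT f hBd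
  obtain ⟨η₂, hη₂, hfix⟩ := PPS.FL_fix f hn
  have hCR := hCf0 R
  set K₁ : ℝ := 2 * Real.pi + 4 * Cf R with hK₁
  have hK₁0 : 0 < K₁ := by positivity
  refine ⟨min (min (ε₁ / 16) (ε₂ / K₁)) η₂, by positivity, ?_⟩
  intro k z hcyc h1
  -- it is enough to bound the logarithm
  suffices hlog : min (min (ε₁ / 16) (ε₂ / K₁)) η₂ ≤ Real.log ‖PPS.mlt f k z‖ by
    have h2 := Real.add_one_le_exp (min (min (ε₁ / 16) (ε₂ / K₁)) η₂)
    have h3 : Real.exp (min (min (ε₁ / 16) (ε₂ / K₁)) η₂) ≤ ‖PPS.mlt f k z‖ := by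
      rw [← Real.exp_log (lt_trans one_pos h1)]
      exact Real.exp_le_exp.mpr hlog
    linarith
  obtain ⟨hk0, hper⟩ := hcyc
  have hmlt0 : PPS.mlt f k z ≠ 0 := by
    intro h0
    rw [h0, norm_zero] at h1
    linarith
  by_cases hk2 : 2 ≤ k
  · refine (min_le_left _ _).trans ?_
    have : NeZero k := ⟨by omega⟩
    obtain ⟨b, -, -, -, -, hrho, hIs⟩ := hZCY f k z ⟨hk0, hper⟩
    have hC' := hIs hmlt0
    rw [← hrho] at h1 ⊢
    have hrho1 : PPS.rho f b ≠ 1 := by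
      intro h
      rw [h, norm_one] at h1
      exact lt_irrefl _ h1
    obtain ⟨g, hg, -⟩ := hTG f.natDegree k f b hn rfl hC' hrho1
    have hEr := hFLE k b g hk2 hC' h1 hg
    by_contra hcon
    rw [not_le, lt_min_iff] at hcon
    obtain ⟨hc1, hc2⟩ := hcon
    have hL0 : 0 < Real.log ‖PPS.rho f b‖ := Real.log_pos h1
    by_cases hclose : ‖PPS.rho f b - 1‖ ≤ ε₁ / 4
    · obtain ⟨lam, hl1, hl2, hl3, -⟩ := hL1 (PPS.rho f b) h1 (by linarith)
      have h4 : Real.log ‖PPS.rho f b‖ ≤ ‖lam‖ := by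
        rw [← hl2]
        exact Complex.re_le_norm lam
      have h5 := hV k f b g lam hk2 hBd hC' hg hl1.symm (by rw [hl2]; exact hL0)
        (fun R' hR' => (hEr R' (by linarith)).trans
          (mul_le_mul_of_nonneg_left h4 (hCf0 R')))
      linarith
    · rw [not_le] at hclose
      have h4 := hL3 (PPS.rho f b) h1 (by linarith)
      have h5 := hT k b g hk2 hC' h1 (by linarith)
      have h6 := hEr R (by linarith)
      have h7 : Real.log ‖PPS.rho f b‖ * K₁ < ε₂ := (lt_div_iff₀ hK₁0).mp hc2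
      have h8 : ε₂ ≤ Real.log ‖PPS.rho f b‖ * K₁ := by
        calc ε₂ ≤ 2 * Real.pi * Real.log ‖PPS.rho f b‖ +
              4 * ∫ z in ball (0 : ℂ) R, ‖PPS.er f b g z‖ := h5
          _ ≤ 2 * Real.pi * Real.log ‖PPS.rho f b‖ +
              4 * (Cf R * Real.log ‖PPS.rho f b‖) := by gcongr
          _ = Real.log ‖PPS.rho f b‖ * K₁ := by rw [hK₁]; ring
      linarith
  · refine (min_le_right _ _).trans ?_
    have hk1 : k = 1 := by omega
    subst hk1
    have hfx : f.eval z = z := by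
      have h2 := Function.isPeriodicPt_minimalPeriod (fun w : ℂ => f.eval w) z
      rw [hper] at h2
      simpa [Function.IsPeriodicPt, Function.IsFixedPt] using h2
    have hml : PPS.mlt f 1 z = PPS.fd f z := by
      unfold PPS.mlt PPS.fd
      rw [Function.iterate_one, Polynomial.deriv]
    rw [hml] at h1 ⊢
    exact hfix z hfx h1

end V3W
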