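import Pool.Agent.helper54.V3.SpecG

/-!
# Project v3:, module GBA: the `x`-plane
-/

set_option autoImplicit false

open Complex Metric Set Filter Topology MeasureTheory MPS V3

noncomputable section

namespace V3S

/-- The iterates are polynomials in the `x`-plane. -/
theorem GBA_poly (D : Dat) (j : ℕ) : ∃ Q : Polynomial ℂ, ∀ x, D.F j x = Q.eval x := by
  refine ⟨Polynomial.C D.sg⁻¹ * (D.f.comp^[j] (Polynomial.C (D.b 0) +
    Polynomial.C D.sg * Polynomial.X) - Polynomial.C (D.b 0)), fun x => ?_⟩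
  rw [Polynomial.eval_mul, Polynomial.eval_C, Polynomial.eval_sub, Polynomial.eval_C,
    Polynomial.iterate_comp_eval, Polynomial.eval_add, Polynomial.eval_C, Polynomial.eval_mul,
    Polynomial.eval_C, Polynomial.eval_X]
  unfold Dat.F Dat.xx Dat.zz
  rw [div_eq_inv_mul]

theorem GBA (hBA1 : BA1_stmt) (hBA2 : BA2_stmt) (hBA3 : BA3_stmt) : GBA_stmt := by
  intro n ra Cf D hD
  obtain ⟨a1, a2, a3, a4, a5, a6, -, a8, -, -, a11, a12, -, a14, a15, -⟩ := hBA1 n ra Cf D hD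
  obtain ⟨b1, -⟩ := hBA2 n ra Cf D hD
  obtain ⟨-, c2⟩ := hBA3 n ra Cf D hD
  refine ⟨a1, a4, a3, a6, a5, a11, a12, GBA_poly D, ?_, c2, b1, a2, a14, ?_, a8, a15⟩
  · obtain ⟨Q, hQ⟩ := GBA_poly D D.k
    refine ⟨Polynomial.C D.lam⁻¹ * (Q - Polynomial.X), fun x => ?_⟩
    rw [Polynomial.eval_mul, Polynomial.eval_C, Polynomial.eval_sub, Polynomial.eval_X, ← hQ x]
    unfold Dat.v
    rw [div_eq_inv_mul]
  · unfold Dat.A
    have h1 : D.F 0 = fun x => x := funext a5
    rw [h1]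
    exact deriv_id 0

end V3S
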