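import Pool.Agent.helper36.V3.SpecP

/-!
# Project v3:, module START: the chain property at the first point
-/

set_option autoImplicit false

open Complex Metric Set Filter Topology MeasureTheory MPS

noncomputable section

namespace V3S

/-- The maximal pole map in the `x`-plane. -/
def START_pt (D : Dat) (u : ℂ) : ℂ := D.xx (D.ψ 0 u)

theorem START_props (hNI : MPS.NI_stmt) (n : ℕ) (ra : ℝ) (Cf : ℝ → ℝ) (D : Dat)
    (h : D.Good n ra Cf) :
    DifferentiableOn ℂ (START_pt D) (ball 0 1) ∧ InjOn (START_pt D) (ball 0 1) ∧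
    START_pt D 0 = 0 ∧ deriv (START_pt D) 0 = 1 := by
  have hpn := (h.mx 0).pn
  have hsg : D.sg ≠ 0 := hpn.der
  have hinj : InjOn (D.ψ 0) (ball 0 1) := hNI D.k D.b D.g 0 (D.ψ 0) 1 hpn
  have hd : DifferentiableOn ℂ (D.ψ 0) (ball 0 1) := hpn.diff
  have h0 : (0 : ℂ) ∈ ball (0 : ℂ) 1 := mem_ball_self one_pos
  have hd0 : DifferentiableAt ℂ (D.ψ 0) 0 := hd.differentiableAt (isOpen_ball.mem_nhds h0)
  refine ⟨?_, ?_, ?_, ?_⟩
  · exact (hd.sub_const _).div_const _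
  · intro x hx y hy hxy
    apply hinj hx hy
    have h1 : (D.ψ 0 x - D.b 0) / D.sg = (D.ψ 0 y - D.b 0) / D.sg := hxy
    rw [div_left_inj' hsg] at h1
    exact sub_left_injective h1
  · change (D.ψ 0 0 - D.b 0) / D.sg = 0
    rw [hpn.val, sub_self, zero_div]
  · have h1 : HasDerivAt (START_pt D) (deriv (D.ψ 0) 0 / D.sg) 0 :=
      ((hd0.hasDerivAt.sub_const _).div_const _)
    rw [h1.deriv]
    exact div_self hsg

theorem START (hST1 : ST1_stmt) (hKO1 : V3.KO1_stmt) (hKO3 : V3.KO3_stmt) (hTUL : V3.TUL_stmt)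
    (hNI : MPS.NI_stmt) : START_stmt := by
  intro n ra Cf D hD
  obtain ⟨r, hr, hST⟩ := hST1
  obtain ⟨C, hC, ε₀, hε₀, hST⟩ := hST n ra Cf
  obtain ⟨C₁, hC₁, hK1⟩ := hKO1
  obtain ⟨C₃, hC₃, hK3⟩ := hKO3 (1 / 2) (by norm_num) (by norm_num)
  have hC1p : 0 < C₁ := by linarith
  have hC3p : 0 < C₃ := by linarith
  have h0 : (0 : ℂ) ∈ ball (0 : ℂ) 1 := mem_ball_self one_pos
  have h14 : ‖(1 / 4 : ℂ)‖ = 1 / 4 := by
    rw [norm_div, norm_one]; norm_num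
  have h14m : (1 / 4 : ℂ) ∈ ball (0 : ℂ) ((1 - 1 / 2) * 1) := by
    rw [mem_ball_zero_iff, h14]; norm_num
  -- estimates for every datum
  have hest : ∀ m, ‖START_pt (D m) (1 / 4)‖ ≤ C₃ ∧ 1 / C₃ ≤ ‖deriv (START_pt (D m)) (1 / 4)‖ := by
    intro m
    obtain ⟨p1, p2, p3, p4⟩ := START_props hNI n ra Cf (D m) (hD.good m)
    obtain ⟨-, h2⟩ := hK3 (START_pt (D m)) 0 1 one_pos p1 p2
    obtain ⟨-, h4, h5, -⟩ := h2 (1 / 4) h14m
    rw [p3, sub_zero, sub_zero, p4, norm_one, mul_one, h14] at h5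
    rw [p4, norm_one] at h4
    constructor
    · linarith
    · rw [div_le_iff₀ hC3p]
      linarith
  obtain ⟨x₀, -, hx₀⟩ := hTUL (hyperfilter ℕ) (fun m => START_pt (D m) (1 / 4)) C₃
    (Eventually.of_forall fun m => (hest m).1)
  refine ⟨x₀, hx₀, r, hr, C, hC, ?_⟩
  have hlam : ∀ᶠ m in UF, ‖(D m).lam‖ ≤ ε₀ := by
    have h1 : ∀ᶠ m in atTop, ‖(D m).lam‖ ≤ ε₀ := by
      have h2 := (hD.lim).norm
      rw [norm_zero] at h2
      exact (h2.eventually_lt_const hε₀).mono fun m hm => hm.le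
    exact UF_le h1
  have hc : 0 < 1 / 16 * (1 / C₃) / C₁ := by positivity
  have hclose : ∀ᶠ m in UF, ‖START_pt (D m) (1 / 4) - x₀‖ < 1 / 16 * (1 / C₃) / C₁ := by
    have h1 : Tendsto (fun m => START_pt (D m) (1 / 4)) UF (𝓝 x₀) := hx₀
    have h2 := h1.eventually (ball_mem_nhds x₀ hc)
    filter_upwards [h2] with m hm
    rwa [dist_eq_norm] at hm
  filter_upwards [hlam, hclose] with m hm1 hm2
  obtain ⟨p1, p2, p3, p4⟩ := START_props hNI n ra Cf (D m) (hD.good m)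
  have hsub : ball (1 / 4 : ℂ) (1 / 16) ⊆ ball (0 : ℂ) 1 := by
    intro z hz
    rw [mem_ball, dist_eq_norm] at hz
    rw [mem_ball_zero_iff]
    have h1 : ‖z‖ ≤ ‖z - 1 / 4‖ + ‖(1 / 4 : ℂ)‖ := by
      have h2 := norm_add_le (z - 1 / 4) (1 / 4)
      rwa [sub_add_cancel] at h2
    rw [h14] at h1
    linarith
  have hk1 := hK1 (START_pt (D m)) (1 / 4) (1 / 16) (by norm_num) (p1.mono hsub) (p2.mono hsub)
  have hmem : x₀ ∈ ball (START_pt (D m) (1 / 4)) (1 / 16 * ‖deriv (START_pt (D m)) (1 / 4)‖ / C₁) := by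
    rw [mem_ball, dist_comm, dist_eq_norm]
    refine lt_of_lt_of_le hm2 ?_
    have h3 := (hest m).2
    gcongr
  obtain ⟨u, hu, hux⟩ := hk1 hmem
  rw [mem_ball, dist_eq_norm] at hu
  obtain ⟨χ, G, Φ, hctl⟩ := hST (D m) (hD.good m) hm1 u hu.le
  refine ⟨χ, G, Φ, ?_⟩
  have h5 : (D m).xx ((D m).ψ 0 u) = x₀ := hux
  rw [h5] at hctl
  exact hctl

end V3S
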